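import Pool.Agent.H36.VM.RedB

/-!
# Square membrane (MP_71a28e_an, S05034): module RED (`T_red` from `T_pair`)
-/

set_option autoImplicit false

open MeasureTheory Filter Topology

namespace Pool.Agent.H36.VM

open Pool.Agent.H28.VM

/-- bumps -/
theorem exists_bump (x lo hi : ℝ) (h1 : lo < x) (h2 : x < hi) :
    ∃ g : ℝ → ℝ, ContDiff ℝ (⊤ : ℕ∞) g ∧ HasCompactSupport g ∧ tsupport g ⊆ Set.Ioo lo hi ∧
      (∀ y, 0 ≤ g y) ∧ g x ≠ 0 := by
  set δ : ℝ := min (x - lo) (hi - x) with hδ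
  have hδ0 : 0 < δ := lt_min (by linarith) (by linarith)
  let f : ContDiffBump x := ⟨δ / 4, δ / 2, by linarith, by linarith⟩
  refine ⟨f, f.contDiff, f.hasCompactSupport, ?_, fun y => f.nonneg, ?_⟩
  · rw [f.tsupport_eq, Real.closedBall_eq_Icc]
    have h3 : δ ≤ x - lo := min_le_left _ _
    have h4 : δ ≤ hi - x := min_le_right _ _
    intro y hy
    have h5 : x - δ / 2 ≤ y := hy.1
    have h6 : y ≤ x + δ / 2 := hy.2
    exact ⟨by linarith, by linarith⟩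
  · have : f x = 1 := f.one_of_mem_closedBall (Metric.mem_closedBall_self (by positivity))
    rw [this]
    exact one_ne_zero

/-- the square `(0,π)²` -/
abbrev SQ : Set (ℝ × ℝ) := Set.Ioo (0 : ℝ) Real.pi ×ˢ Set.Ioo (0 : ℝ) Real.pi

/-- the unpacked frozen statement for `l = π/2` -/
theorem unpack (hF : Frozen) (T : ℝ) (hT : 0 < T) :
    ∃ a b : ℕ → ℕ → ℝ, ∃ F : ℝ → ℝ × ℝ → ℝ, Energy a b ∧
      (∀ t, MemLp (F t) 2 (volume.restrict SQ)) ∧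
      (∀ t, ∀ m n : ℕ, ∫ x in SQ, F t x * Real.sin (((m : ℝ) + 1) * x.1) *
        Real.sin (((n : ℝ) + 1) * x.2) = (Real.pi / 2) ^ 2 * tm a b (m, n) t) ∧
      ∀ t ∈ Set.Icc 0 T, ∀ x ∈ QQ, 0 < F t x := by
  have hpi := Real.pi_pos
  obtain ⟨a, b, F, h1, h2, -, h4⟩ := hF (Real.pi / 2) (by positivity) T hT
  have e : 2 * (Real.pi / 2) = Real.pi := by ring
  have e2 : ∀ y z : ℝ, y * Real.pi * z / Real.pi = y * z := by
    intro y z
    field_simp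
  simp only [e, e2, div_self hpi.ne', one_mul] at h2
  exact ⟨a, b, F, h1, fun t => (h2 t).1, fun t m n => (h2 t).2 m n, h4⟩

section tests

variable {g₁ g₂ : ℝ → ℝ}

theorem sm_mono {b b' : ℝ} (h : b ≤ b') {g : ℝ → ℝ} (hg : Sm b g) : Sm b' g :=
  ⟨hg.smooth, hg.compact, hg.supp.trans (Set.Ioo_subset_Ioo_right h)⟩

theorem sm_pi {g : ℝ → ℝ} (hg : Sm (Real.pi / 2) g) : Sm Real.pi g :=
  sm_mono (by linarith [Real.pi_pos]) hg

theorem sm_bdd {b : ℝ} {g : ℝ → ℝ} (hg : Sm b g) : ∃ C, ∀ x, |g x| ≤ C := by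
  obtain ⟨C, hC⟩ := hg.smooth.continuous.bounded_above_of_compact_support hg.compact
  exact ⟨C, fun x => hC x⟩

theorem sm_zero {b : ℝ} {g : ℝ → ℝ} (hg : Sm b g) {x : ℝ} (hx : x ∉ Set.Ioo 0 b) : g x = 0 := by
  by_contra h
  exact hx (hg.supp (subset_tsupport g h))

/-- weights of the test pair -/
noncomputable def wt (g₁ g₂ : ℝ → ℝ) (p : ℕ × ℕ) : ℝ := sc g₁ p.1 * sc g₂ p.2

theorem int_prod (g₁ g₂ : ℝ → ℝ) (m n : ℕ) :
    ∫ x in SQ, g₁ x.1 * g₂ x.2 * Real.sin (((m : ℝ) + 1) * x.1) * Real.sin (((n : ℝ) + 1) * x.2) =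
      sc g₁ m * sc g₂ n := by
  have h := setIntegral_prod_mul (μ := (volume : Measure ℝ)) (ν := (volume : Measure ℝ))
    (fun x => g₁ x * Real.sin (((m : ℝ) + 1) * x)) (fun x => g₂ x * Real.sin (((n : ℝ) + 1) * x))
    (Set.Ioo 0 Real.pi) (Set.Ioo 0 Real.pi)
  unfold sc
  rw [← h, Measure.volume_eq_prod]
  refine integral_congr_ae (ae_of_all _ fun x => ?_)
  ring

theorem summable_wt_sq (hP : T_pair) (hg₁ : Sm Real.pi g₁) (hg₂ : Sm Real.pi g₂) :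
    Summable fun p => wt g₁ g₂ p ^ 2 := by
  have hc : Continuous fun x : ℝ × ℝ => g₁ x.1 * g₂ x.2 :=
    (hg₁.smooth.continuous.comp continuous_fst).mul (hg₂.smooth.continuous.comp continuous_snd)
  have hfin : IsFiniteMeasure (volume.restrict SQ) := by
    refine ⟨?_⟩
    rw [Measure.restrict_apply_univ, Measure.volume_eq_prod, Measure.prod_prod, Real.volume_Ioo]
    exact ENNReal.mul_lt_top ENNReal.ofReal_lt_top ENNReal.ofReal_lt_top
  obtain ⟨C₁, hC₁⟩ := sm_bdd hg₁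
  obtain ⟨C₂, hC₂⟩ := sm_bdd hg₂
  have hm : MemLp (fun x : ℝ × ℝ => g₁ x.1 * g₂ x.2) 2 (volume.restrict SQ) := by
    refine MemLp.of_bound hc.aestronglyMeasurable (C₁ * C₂) (ae_of_all _ fun x => ?_)
    rw [Real.norm_eq_abs, abs_mul]
    exact mul_le_mul (hC₁ _) (hC₂ _) (abs_nonneg _) ((abs_nonneg _).trans (hC₁ x.1))
  have hpi := Real.pi_pos
  have h := (hP _ hm (fun m n => (2 / Real.pi) ^ 2 * (sc g₁ m * sc g₂ n)) (fun m n => by
    rw [int_prod]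
    field_simp) g₁ g₂ hg₁ hg₂).1
  have h2 := h.mul_left ((Real.pi / 2) ^ 2)
  refine h2.congr fun p => ?_
  have e : sc g₁ p.1 * sc g₂ p.2 * ((2 / Real.pi) ^ 2 * (sc g₁ p.1 * sc g₂ p.2)) =
      (2 / Real.pi) ^ 2 * wt g₁ g₂ p ^ 2 := by
    unfold wt; ring
  rw [e, abs_of_nonneg (by positivity), ← mul_assoc]
  have e3 : (Real.pi / 2) ^ 2 * (2 / Real.pi) ^ 2 = 1 := by
    field_simp
  rw [e3, one_mul]

/-- the pairing of the solution with a test pair -/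
theorem rep_pair (hP : T_pair) (hg₁ : Sm Real.pi g₁) (hg₂ : Sm Real.pi g₂) {a b : ℕ → ℕ → ℝ}
    {F : ℝ → ℝ × ℝ → ℝ} (hF : ∀ t, MemLp (F t) 2 (volume.restrict SQ))
    (hA : ∀ t, ∀ m n : ℕ, ∫ x in SQ, F t x * Real.sin (((m : ℝ) + 1) * x.1) *
        Real.sin (((n : ℝ) + 1) * x.2) = (Real.pi / 2) ^ 2 * tm a b (m, n) t) :
    Rep a b (wt g₁ g₂) (fun t => ∫ x in SQ, g₁ x.1 * g₂ x.2 * F t x) := by
  intro t
  obtain ⟨h1, h2⟩ := hP (F t) (hF t) (fun m n => tm a b (m, n) t) (hA t) g₁ g₂ hg₁ hg₂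
  have h3 : Summable fun p : ℕ × ℕ => sc g₁ p.1 * sc g₂ p.2 * tm a b (p.1, p.2) t := h1.of_abs
  have h4 := h3.hasSum
  show HasSum _ (∫ x in SQ, g₁ x.1 * g₂ x.2 * F t x)
  rw [h2]
  exact h4

theorem pair_pos (hg₁ : Sm (Real.pi / 2) g₁) (hg₂ : Sm (Real.pi / 2) g₂)
    (h₁ : ∀ x, 0 ≤ g₁ x) (h₂ : ∀ x, 0 ≤ g₂ x)
    (x₁ : ℝ) (hx₁ : g₁ x₁ ≠ 0) (x₂ : ℝ) (hx₂ : g₂ x₂ ≠ 0) {f : ℝ × ℝ → ℝ}
    (hf : MemLp f 2 (volume.restrict SQ)) (hpos : ∀ x ∈ QQ, 0 < f x) :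
    0 < ∫ x in SQ, g₁ x.1 * g₂ x.2 * f x := by
  have hc : Continuous fun x : ℝ × ℝ => g₁ x.1 * g₂ x.2 :=
    (hg₁.smooth.continuous.comp continuous_fst).mul (hg₂.smooth.continuous.comp continuous_snd)
  have hfin : IsFiniteMeasure (volume.restrict SQ) := by
    refine ⟨?_⟩
    rw [Measure.restrict_apply_univ, Measure.volume_eq_prod, Measure.prod_prod, Real.volume_Ioo]
    exact ENNReal.mul_lt_top ENNReal.ofReal_lt_top ENNReal.ofReal_lt_top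
  obtain ⟨C₁, hC₁⟩ := sm_bdd hg₁
  obtain ⟨C₂, hC₂⟩ := sm_bdd hg₂
  have hint : IntegrableOn (fun x : ℝ × ℝ => g₁ x.1 * g₂ x.2 * f x) SQ := by
    have hfi : Integrable f (volume.restrict SQ) := hf.integrable one_le_two
    refine hfi.bdd_mul (c := C₁ * C₂) hc.aestronglyMeasurable (ae_of_all _ fun x => ?_)
    rw [Real.norm_eq_abs, abs_mul]
    exact mul_le_mul (hC₁ _) (hC₂ _) (abs_nonneg _) ((abs_nonneg _).trans (hC₁ x.1))
  have hnn : ∀ x, 0 ≤ g₁ x.1 * g₂ x.2 * f x := by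
    intro x
    by_cases hx : x ∈ QQ
    · exact mul_nonneg (mul_nonneg (h₁ _) (h₂ _)) (hpos x hx).le
    · have : g₁ x.1 = 0 ∨ g₂ x.2 = 0 := by
        by_contra hcon
        rw [not_or] at hcon
        apply hx
        refine ⟨?_, ?_⟩
        · by_contra h; exact hcon.1 (sm_zero hg₁ h)
        · by_contra h; exact hcon.2 (sm_zero hg₂ h)
      rcases this with h | h <;> rw [h] <;> simp
  rw [setIntegral_pos_iff_support_of_nonneg_ae (ae_of_all _ hnn) hint]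
  have hopen : IsOpen {x : ℝ × ℝ | g₁ x.1 * g₂ x.2 ≠ 0} := isOpen_ne_fun hc continuous_const
  have hne : ({x : ℝ × ℝ | g₁ x.1 * g₂ x.2 ≠ 0}).Nonempty := ⟨(x₁, x₂), mul_ne_zero hx₁ hx₂⟩
  refine lt_of_lt_of_le (hopen.measure_pos volume hne) (measure_mono ?_)
  intro x hx
  have hx1 : g₁ x.1 ≠ 0 := left_ne_zero_of_mul hx
  have hx2 : g₂ x.2 ≠ 0 := right_ne_zero_of_mul hx
  have hq : x ∈ QQ := by
    refine ⟨?_, ?_⟩
    · by_contra h; exact hx1 (sm_zero hg₁ h)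
    · by_contra h; exact hx2 (sm_zero hg₂ h)
  refine ⟨mul_ne_zero hx (hpos x hq).ne', ?_⟩
  have hpi := Real.pi_pos
  exact ⟨⟨hq.1.1, by linarith [hq.1.2]⟩, ⟨hq.2.1, by linarith [hq.2.2]⟩⟩

end tests

theorem int_u {a b : ℕ → ℕ → ℝ} (h : Energy a b) (S : Finset (ℕ × ℕ)) (tc t : ℝ) {g₁ g₂ : ℝ → ℝ}
    (hg₁ : Sm Real.pi g₁) (hg₂ : Sm Real.pi g₂) :
    ∫ x in SQ, g₁ x.1 * g₂ x.2 * u (cf a b S tc) t x =
      ∑' p, wt g₁ g₂ p * (sg S p * tm a b p (t + tc)) := by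
  have hc : Continuous fun x : ℝ × ℝ => g₁ x.1 * g₂ x.2 :=
    (hg₁.smooth.continuous.comp continuous_fst).mul (hg₂.smooth.continuous.comp continuous_snd)
  have hvol : volume SQ < ⊤ := by
    rw [Measure.volume_eq_prod, Measure.prod_prod, Real.volume_Ioo]
    exact ENNReal.mul_lt_top ENNReal.ofReal_lt_top ENNReal.ofReal_lt_top
  have hfin : IsFiniteMeasure (volume.restrict SQ) := ⟨by rwa [Measure.restrict_apply_univ]⟩
  obtain ⟨C₁, hC₁⟩ := sm_bdd hg₁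
  obtain ⟨C₂, hC₂⟩ := sm_bdd hg₂
  have hC₁0 : 0 ≤ C₁ := (abs_nonneg _).trans (hC₁ 0)
  have hC₂0 : 0 ≤ C₂ := (abs_nonneg _).trans (hC₂ 0)
  set f : ℕ × ℕ → ℝ × ℝ → ℝ := fun p x => sg S p * tm a b p (t + tc) *
    (g₁ x.1 * g₂ x.2 * Real.sin (((p.1 : ℝ) + 1) * x.1) * Real.sin (((p.2 : ℝ) + 1) * x.2)) with hf
  have hcf : ∀ p, Continuous (f p) := by
    intro p
    rw [hf]
    exact continuous_const.mul ((hc.mul (by fun_prop)).mul (by fun_prop))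
  have hbd : ∀ p x, ‖f p x‖ ≤ (C₁ * C₂) * (|sg S p| * (|a p.1 p.2| + |b p.1 p.2|)) := by
    intro p x
    rw [hf, Real.norm_eq_abs]
    simp only [abs_mul]
    have h1 := hC₁ x.1
    have h2 := hC₂ x.2
    have h3 := Real.abs_sin_le_one (((p.1 : ℝ) + 1) * x.1)
    have h4 := Real.abs_sin_le_one (((p.2 : ℝ) + 1) * x.2)
    have h5 := abs_tm_le a b p (t + tc)
    calc |sg S p| * |tm a b p (t + tc)| * (|g₁ x.1| * |g₂ x.2| *
          |Real.sin (((p.1 : ℝ) + 1) * x.1)| * |Real.sin (((p.2 : ℝ) + 1) * x.2)|)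
        ≤ |sg S p| * (|a p.1 p.2| + |b p.1 p.2|) * (C₁ * C₂ * 1 * 1) := by gcongr
      _ = _ := by ring
  have hint : ∀ p, Integrable (f p) (volume.restrict SQ) := by
    intro p
    exact Integrable.of_bound (hcf p).aestronglyMeasurable _ (ae_of_all _ (hbd p))
  have hsum : Summable fun p => ∫ x, ‖f p x‖ ∂(volume.restrict SQ) := by
    refine Summable.of_nonneg_of_le (fun p => integral_nonneg fun x => norm_nonneg _) (fun p => ?_)
      ((h.sum_sg S).mul_left ((C₁ * C₂) * (volume SQ).toReal))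
    have h1 := integral_mono (hint p).norm (integrable_const _) (fun x => hbd p x)
    refine h1.trans (le_of_eq ?_)
    rw [integral_const, smul_eq_mul, Measure.real, Measure.restrict_apply_univ]
    ring
  have hmain := hasSum_integral_of_summable_integral_norm hint hsum
  have e1 : (fun p => ∫ x, f p x ∂(volume.restrict SQ)) =
      fun p => wt g₁ g₂ p * (sg S p * tm a b p (t + tc)) := by
    funext p
    rw [hf]
    simp only
    rw [integral_const_mul, int_prod]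
    unfold wt
    ring
  have e2 : (fun x => ∑' p, f p x) = fun x : ℝ × ℝ => g₁ x.1 * g₂ x.2 * u (cf a b S tc) t x := by
    funext x
    have h1 := (hasSum_u h S tc t x).mul_left (g₁ x.1 * g₂ x.2)
    rw [← h1.tsum_eq]
    refine tsum_congr fun p => ?_
    rw [hf]
    ring
  rw [e1, e2] at hmain
  exact hmain.tsum_eq.symm

theorem continuous_u' {a b : ℕ → ℕ → ℝ} (h : Energy a b) (S : Finset (ℕ × ℕ)) (tc t : ℝ) :
    Continuous (u (cf a b S tc) t) := by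
  have e : u (cf a b S tc) t = fun z : ℝ × ℝ => ∑' p : ℕ × ℕ, sg S p * tm a b p (t + tc) *
      (Real.sin (((p.1 : ℝ) + 1) * z.1) * Real.sin (((p.2 : ℝ) + 1) * z.2)) := by
    funext z
    exact (hasSum_u h S tc t z).tsum_eq.symm
  rw [e]
  refine continuous_tsum (fun p => by fun_prop) (h.sum_sg S) fun p z => ?_
  rw [Real.norm_eq_abs, abs_mul, abs_mul, abs_mul]
  have h3 := Real.abs_sin_le_one (((p.1 : ℝ) + 1) * z.1)
  have h4 := Real.abs_sin_le_one (((p.2 : ℝ) + 1) * z.2)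
  have h5 := abs_tm_le a b p (t + tc)
  calc |sg S p| * |tm a b p (t + tc)| *
        (|Real.sin (((p.1 : ℝ) + 1) * z.1)| * |Real.sin (((p.2 : ℝ) + 1) * z.2)|)
      ≤ |sg S p| * (|a p.1 p.2| + |b p.1 p.2|) * (1 * 1) := by gcongr
    _ = _ := by ring

/-- RED -/
theorem red (hP : T_pair) : T_red := by
  intro hF T ρ hT hρ
  have hpi := Real.pi_pos
  set S := low (2 * ρ) with hS
  have hshf := shf_nonneg S
  set T' : ℝ := 2 * T + 2 * (1 + shf S) with hT'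
  obtain ⟨a, b, F, hE, hM, hA, hpos⟩ := unpack hF T' (by linarith)
  set tc : ℝ := T + (1 + shf S) with htc
  -- positivity of all tests
  have key : ∀ g₁ g₂ : ℝ → ℝ, Sm (Real.pi / 2) g₁ → Sm (Real.pi / 2) g₂ → (∀ x, 0 ≤ g₁ x) →
      (∀ x, 0 ≤ g₂ x) → ∀ x₁, g₁ x₁ ≠ 0 → ∀ x₂, g₂ x₂ ≠ 0 → ∀ t : ℝ, |t| ≤ T →
      0 < ∫ x in SQ, g₁ x.1 * g₂ x.2 * u (cf a b S tc) t x := by
    intro g₁ g₂ hg₁ hg₂ h₁ h₂ x₁ hx₁ x₂ hx₂ t ht
    rw [int_u hE S tc t (sm_pi hg₁) (sm_pi hg₂)]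
    have hrep := rep_pair hP (sm_pi hg₁) (sm_pi hg₂) hM hA
    have hw := hE.sum_w (summable_wt_sq hP (sm_pi hg₁) (sm_pi hg₂))
    have ht' := abs_le.mp ht
    refine avg_pos hrep hw (B := T') (fun s hs => ?_) S (t + tc) ⟨by linarith [ht'.1], by
      linarith [ht'.2]⟩
    exact pair_pos hg₁ hg₂ h₁ h₂ x₁ hx₁ x₂ hx₂ (hM s) (hpos s hs)
  refine ⟨cf a b S tc, cf_coef hE S tc, fun k hk => cf_low a b tc (2 * ρ) k hk, ?_, ?_⟩
  · intro t ht z hz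
    by_contra hneg
    rw [not_le] at hneg
    have hcont := continuous_u' hE S tc t
    have hop : IsOpen {x : ℝ × ℝ | u (cf a b S tc) t x < 0} := isOpen_lt hcont continuous_const
    have hopQ : IsOpen QQ := isOpen_Ioo.prod isOpen_Ioo
    obtain ⟨δ, hδ, hball⟩ := Metric.isOpen_iff.mp (hop.inter hopQ) z ⟨hneg, hz⟩
    obtain ⟨g₁, s₁, c₁, t₁, n₁, z₁⟩ := exists_bump z.1 (z.1 - δ) (z.1 + δ) (by linarith)
      (by linarith)
    obtain ⟨g₂, s₂, c₂, t₂, n₂, z₂⟩ := exists_bump z.2 (z.2 - δ) (z.2 + δ) (by linarith)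
      (by linarith)
    have hin : ∀ x y : ℝ, x ∈ Set.Ioo (z.1 - δ) (z.1 + δ) → y ∈ Set.Ioo (z.2 - δ) (z.2 + δ) →
        u (cf a b S tc) t (x, y) < 0 ∧ (x, y) ∈ QQ := by
      intro x y hx hy
      apply hball
      rw [Metric.mem_ball, Prod.dist_eq, max_lt_iff, Real.dist_eq, Real.dist_eq, abs_lt, abs_lt]
      exact ⟨⟨by linarith [hx.1], by linarith [hx.2]⟩, ⟨by linarith [hy.1], by linarith [hy.2]⟩⟩
    have hz1 : z.1 ∈ Set.Ioo (z.1 - δ) (z.1 + δ) := ⟨by linarith, by linarith⟩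
    have hz2 : z.2 ∈ Set.Ioo (z.2 - δ) (z.2 + δ) := ⟨by linarith, by linarith⟩
    have hg₁ : Sm (Real.pi / 2) g₁ := ⟨s₁, c₁, fun x hx => (hin x z.2 (t₁ hx) hz2).2.1⟩
    have hg₂ : Sm (Real.pi / 2) g₂ := ⟨s₂, c₂, fun y hy => (hin z.1 y hz1 (t₂ hy)).2.2⟩
    have h1 := key g₁ g₂ hg₁ hg₂ n₁ n₂ z.1 z₁ z.2 z₂ t ht
    have h2 : ∫ x in SQ, g₁ x.1 * g₂ x.2 * u (cf a b S tc) t x ≤ 0 := by
      refine integral_nonpos fun x => ?_
      show g₁ x.1 * g₂ x.2 * u (cf a b S tc) t x ≤ 0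
      by_cases e1 : g₁ x.1 = 0
      · rw [e1]; simp
      by_cases e2 : g₂ x.2 = 0
      · rw [e2]; simp
      have h3 := (hin x.1 x.2 (t₁ (subset_tsupport g₁ e1)) (t₂ (subset_tsupport g₂ e2))).1
      exact mul_nonpos_of_nonneg_of_nonpos (mul_nonneg (n₁ _) (n₂ _)) h3.le
    linarith
  · obtain ⟨g, s, c, tt, n, z₀⟩ := exists_bump (1 / 2) 0 1 (by norm_num) (by norm_num)
    have hlt : (1 : ℝ) ≤ Real.pi / 2 := by linarith [Real.pi_gt_three]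
    have hg : Sm (Real.pi / 2) g := ⟨s, c, tt.trans (Set.Ioo_subset_Ioo_right hlt)⟩
    have h1 := key g g hg hg n n (1 / 2) z₀ (1 / 2) z₀ 0 (by rw [abs_zero]; exact hT.le)
    by_contra hcon
    push Not at hcon
    have h3 : (fun x : ℝ × ℝ => g x.1 * g x.2 * u (cf a b S tc) 0 x) = fun _ => 0 := by
      funext x
      by_cases e1 : g x.1 = 0
      · rw [e1]; simp
      by_cases e2 : g x.2 = 0
      · rw [e2]; simp
      rw [hcon x ⟨tt (subset_tsupport g e1), tt (subset_tsupport g e2)⟩, mul_zero]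
    have h2 : ∫ x in SQ, g x.1 * g x.2 * u (cf a b S tc) 0 x = 0 := by
      rw [h3, integral_zero]
    linarith

end Pool.Agent.H36.VM
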