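import Pool.Agent.H28.VM.TargetsR
import Pool.Agent.H28.VM.Basic

/-!
# Square membrane (MP_71a28e_an, S05034): averaging operators and coefficients for `T_red`
-/

set_option autoImplicit false

open MeasureTheory Filter Topology

namespace Pool.Agent.H36.VM

open Pool.Agent.H28.VM

/-- the frequency of the `(m,n)` mode -/
noncomputable def om (p : ℕ × ℕ) : ℝ := Real.sqrt (((p.1 : ℝ) + 1) ^ 2 + ((p.2 : ℝ) + 1) ^ 2)

theorem om_sq (p : ℕ × ℕ) : om p ^ 2 = ((p.1 : ℝ) + 1) ^ 2 + ((p.2 : ℝ) + 1) ^ 2 :=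
  Real.sq_sqrt (by positivity)

theorem one_le_om (p : ℕ × ℕ) : 1 ≤ om p := by
  apply Real.le_sqrt_of_sq_le
  have h1 : (0 : ℝ) ≤ p.1 := Nat.cast_nonneg _
  have h2 : (0 : ℝ) ≤ p.2 := Nat.cast_nonneg _
  nlinarith

theorem om_pos (p : ℕ × ℕ) : 0 < om p := lt_of_lt_of_le one_pos (one_le_om p)

/-- the time factor of the `p` mode -/
noncomputable def tm (a b : ℕ → ℕ → ℝ) (p : ℕ × ℕ) (t : ℝ) : ℝ :=
  a p.1 p.2 * Real.cos (om p * t) + b p.1 p.2 * Real.sin (om p * t)

theorem abs_tm_le (a b : ℕ → ℕ → ℝ) (p : ℕ × ℕ) (t : ℝ) :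
    |tm a b p t| ≤ |a p.1 p.2| + |b p.1 p.2| := by
  unfold tm
  refine (abs_add_le _ _).trans ?_
  rw [abs_mul, abs_mul]
  have h1 := Real.abs_cos_le_one (om p * t)
  have h2 := Real.abs_sin_le_one (om p * t)
  have h3 := abs_nonneg (a p.1 p.2)
  have h4 := abs_nonneg (b p.1 p.2)
  nlinarith

theorem tm_avg (a b : ℕ → ℕ → ℝ) (p : ℕ × ℕ) (t α : ℝ) :
    (tm a b p (t - α) + tm a b p (t + α)) / 2 = Real.cos (α * om p) * tm a b p t := by
  unfold tm
  rw [mul_sub, mul_add, Real.cos_sub, Real.cos_add, Real.sin_sub, Real.sin_add, mul_comm α]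
  ring

theorem tm_int (a b : ℕ → ℕ → ℝ) (p : ℕ × ℕ) (t : ℝ) :
    (∫ s in (-1 : ℝ)..1, tm a b p (t + s)) / 2 = Real.sin (om p) / om p * tm a b p t := by
  have ho := (om_pos p).ne'
  have h1 : ∫ s in (-1 : ℝ)..1, tm a b p (t + s) =
      (a p.1 p.2 * Real.sin (om p * (t + 1)) - b p.1 p.2 * Real.cos (om p * (t + 1))) / om p -
      (a p.1 p.2 * Real.sin (om p * (t + -1)) - b p.1 p.2 * Real.cos (om p * (t + -1))) / om p := by
    refine intervalIntegral.integral_eq_sub_of_hasDerivAt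
      (f := fun s => (a p.1 p.2 * Real.sin (om p * (t + s)) -
        b p.1 p.2 * Real.cos (om p * (t + s))) / om p) ?_ ?_
    · intro s _
      have hl : HasDerivAt (fun s : ℝ => om p * (t + s)) (om p) s := by
        simpa using ((hasDerivAt_id s).const_add t).const_mul (om p)
      have h2 := ((hl.sin.const_mul (a p.1 p.2)).sub (hl.cos.const_mul (b p.1 p.2))).div_const (om p)
      have e : tm a b p (t + s) = (a p.1 p.2 * (Real.cos (om p * (t + s)) * om p) -
          b p.1 p.2 * (-Real.sin (om p * (t + s)) * om p)) / om p := by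
        unfold tm
        field_simp
        ring
      rw [e]
      exact h2
    · apply Continuous.intervalIntegrable
      unfold tm
      fun_prop
  rw [h1]
  unfold tm
  rw [mul_add, mul_add, Real.cos_add, Real.sin_add, Real.cos_add, Real.sin_add, mul_neg, mul_one,
    Real.cos_neg, Real.sin_neg]
  field_simp
  ring

theorem continuous_tm (a b : ℕ → ℕ → ℝ) (p : ℕ × ℕ) : Continuous (tm a b p) := by
  unfold tm; fun_prop

/-- `f` is given by the series with weights `w` and multipliers `σ` -/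
def Rep (a b : ℕ → ℕ → ℝ) (w : ℕ × ℕ → ℝ) (f : ℝ → ℝ) : Prop :=
  ∀ t, HasSum (fun p => w p * tm a b p t) (f t)

theorem Rep.avg {a b : ℕ → ℕ → ℝ} {w : ℕ × ℕ → ℝ} {f : ℝ → ℝ} (h : Rep a b w f) (α : ℝ) :
    Rep a b (fun p => w p * Real.cos (α * om p)) (fun t => (f (t - α) + f (t + α)) / 2) := by
  intro t
  have h1 := ((h (t - α)).add (h (t + α))).div_const 2
  have e : (fun p => w p * Real.cos (α * om p) * tm a b p t) =
      fun p => (w p * tm a b p (t - α) + w p * tm a b p (t + α)) / 2 := by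
    funext p
    rw [mul_assoc, ← tm_avg]
    ring
  rw [e]
  exact h1

/-- iterated averages -/
theorem Rep.avgs {a b : ℕ → ℕ → ℝ} {w : ℕ × ℕ → ℝ} {f : ℝ → ℝ} (h : Rep a b w f) {A B : ℝ}
    (hf : ∀ t ∈ Set.Icc A B, 0 < f t) (S : Finset (ℕ × ℕ)) (α : ℕ × ℕ → ℝ) (hα : ∀ q, 0 ≤ α q) :
    ∃ g : ℝ → ℝ, Rep a b (fun p => w p * ∏ q ∈ S, Real.cos (α q * om p)) g ∧
      ∀ t ∈ Set.Icc (A + ∑ q ∈ S, α q) (B - ∑ q ∈ S, α q), 0 < g t := by
  classical
  induction S using Finset.induction_on with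
  | empty => exact ⟨f, by simpa using h, by simpa using hf⟩
  | insert q S hq ih =>
    obtain ⟨g, hg, hg2⟩ := ih
    refine ⟨fun t => (g (t - α q) + g (t + α q)) / 2, ?_, ?_⟩
    · have h1 := hg.avg (α q)
      have e : (fun p => w p * ∏ q' ∈ insert q S, Real.cos (α q' * om p)) =
          fun p => (w p * ∏ q' ∈ S, Real.cos (α q' * om p)) * Real.cos (α q * om p) := by
        funext p
        rw [Finset.prod_insert hq]
        ring
      rw [e]
      exact h1
    · intro t ht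
      rw [Finset.sum_insert hq, Set.mem_Icc] at ht
      have h0 := hα q
      have h1 := hg2 (t - α q) ⟨by linarith [ht.1], by linarith [ht.2]⟩
      have h2 := hg2 (t + α q) ⟨by linarith [ht.1], by linarith [ht.2]⟩
      positivity

theorem Rep.continuous {a b : ℕ → ℕ → ℝ} {w : ℕ × ℕ → ℝ} {f : ℝ → ℝ} (h : Rep a b w f)
    (hs : Summable fun p : ℕ × ℕ => |w p| * (|a p.1 p.2| + |b p.1 p.2|)) : Continuous f := by
  have e : f = fun t => ∑' p, w p * tm a b p t := by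
    funext t
    exact (h t).tsum_eq.symm
  rw [e]
  refine continuous_tsum (fun p => (continuous_tm a b p).const_mul (w p)) hs fun p t => ?_
  rw [Real.norm_eq_abs, abs_mul]
  exact mul_le_mul_of_nonneg_left (abs_tm_le a b p t) (abs_nonneg _)

theorem Rep.int {a b : ℕ → ℕ → ℝ} {w : ℕ × ℕ → ℝ} {f : ℝ → ℝ} (h : Rep a b w f)
    (hs : Summable fun p : ℕ × ℕ => |w p| * (|a p.1 p.2| + |b p.1 p.2|)) :
    Rep a b (fun p => w p * (Real.sin (om p) / om p))
      (fun t => (∫ s in (-1 : ℝ)..1, f (t + s)) / 2) := by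
  intro t
  have h1 : HasSum (fun p => ∫ s in (-1 : ℝ)..1, w p * tm a b p (t + s))
      (∫ s in (-1 : ℝ)..1, f (t + s)) := by
    refine intervalIntegral.hasSum_integral_of_dominated_convergence
      (fun p _ => |w p| * (|a p.1 p.2| + |b p.1 p.2|)) ?_ ?_ ?_ ?_ ?_
    · intro p
      apply Continuous.aestronglyMeasurable
      exact (((continuous_tm a b p).comp (continuous_const.add continuous_id)).const_mul (w p))
    · intro p
      refine ae_of_all _ fun s _ => ?_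
      rw [Real.norm_eq_abs, abs_mul]
      exact mul_le_mul_of_nonneg_left (abs_tm_le a b p _) (abs_nonneg _)
    · exact ae_of_all _ fun s _ => hs
    · exact intervalIntegrable_const
    · exact ae_of_all _ fun s _ => h (t + s)
  have h2 := h1.div_const 2
  have e : (fun p => w p * (Real.sin (om p) / om p) * tm a b p t) =
      fun p => (∫ s in (-1 : ℝ)..1, w p * tm a b p (t + s)) / 2 := by
    funext p
    rw [intervalIntegral.integral_const_mul, mul_assoc, ← tm_int]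
    ring
  rw [e]
  exact h2

theorem Rep.int_pos {f : ℝ → ℝ} (hc : Continuous f) {A B : ℝ}
    (hf : ∀ t ∈ Set.Icc A B, 0 < f t) :
    ∀ t ∈ Set.Icc (A + 1) (B - 1), 0 < (∫ s in (-1 : ℝ)..1, f (t + s)) / 2 := by
  intro t ht
  have h1 : 0 < ∫ s in (-1 : ℝ)..1, f (t + s) := by
    apply intervalIntegral.intervalIntegral_pos_of_pos_on
    · exact (hc.comp (continuous_const.add continuous_id)).intervalIntegrable _ _
    · intro s hs
      apply hf
      exact ⟨by linarith [ht.1, hs.1], by linarith [ht.2, hs.2]⟩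
    · norm_num
  linarith

/-- the multiplier -/
noncomputable def sg (S : Finset (ℕ × ℕ)) (p : ℕ × ℕ) : ℝ :=
  Real.sin (om p) / om p * ∏ q ∈ S, Real.cos (Real.pi / (2 * om q) * om p)

theorem abs_sg_le (S : Finset (ℕ × ℕ)) (p : ℕ × ℕ) : |sg S p| ≤ 1 / om p := by
  unfold sg
  rw [abs_mul, abs_div, abs_of_pos (om_pos p), Finset.abs_prod]
  have h1 : ∏ q ∈ S, |Real.cos (Real.pi / (2 * om q) * om p)| ≤ 1 :=
    Finset.prod_le_one (fun _ _ => abs_nonneg _) fun _ _ => Real.abs_cos_le_one _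
  have h2 : |Real.sin (om p)| / om p ≤ 1 / om p :=
    div_le_div_of_nonneg_right (Real.abs_sin_le_one _) (om_pos p).le
  have h3 : 0 ≤ ∏ q ∈ S, |Real.cos (Real.pi / (2 * om q) * om p)| :=
    Finset.prod_nonneg fun _ _ => abs_nonneg _
  calc _ ≤ 1 / om p * 1 := mul_le_mul h2 h1 h3 (by have := om_pos p; positivity)
    _ = _ := mul_one _

theorem sg_eq_zero {S : Finset (ℕ × ℕ)} {p : ℕ × ℕ} (hp : p ∈ S) : sg S p = 0 := by
  unfold sg
  rw [Finset.prod_eq_zero hp, mul_zero]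
  have h : Real.pi / (2 * om p) * om p = Real.pi / 2 := by
    have := (om_pos p).ne'
    field_simp
  rw [h, Real.cos_pi_div_two]

/-- total shift -/
noncomputable def shf (S : Finset (ℕ × ℕ)) : ℝ := ∑ q ∈ S, Real.pi / (2 * om q)

theorem shf_nonneg (S : Finset (ℕ × ℕ)) : 0 ≤ shf S :=
  Finset.sum_nonneg fun q _ => by have := om_pos q; have := Real.pi_pos; positivity

/-- positivity of all averaged tests -/
theorem avg_pos {a b : ℕ → ℕ → ℝ} {w : ℕ × ℕ → ℝ} {f : ℝ → ℝ} (h : Rep a b w f)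
    (hs : Summable fun p : ℕ × ℕ => |w p| * (|a p.1 p.2| + |b p.1 p.2|)) {B : ℝ}
    (hf : ∀ t ∈ Set.Icc 0 B, 0 < f t) (S : Finset (ℕ × ℕ)) (t : ℝ)
    (ht : t ∈ Set.Icc (1 + shf S) (B - (1 + shf S))) :
    0 < ∑' p, w p * (sg S p * tm a b p t) := by
  have hc := h.continuous hs
  obtain ⟨g, hg, hg2⟩ := (h.int hs).avgs (Rep.int_pos hc hf) S (fun q => Real.pi / (2 * om q))
    (fun q => by have := om_pos q; have := Real.pi_pos; positivity)
  have h1 := hg2 t ⟨by have := ht.1; unfold shf at this; linarith,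
    by have := ht.2; unfold shf at this; linarith⟩
  have e : (fun p => w p * (sg S p * tm a b p t)) = fun p =>
      w p * (Real.sin (om p) / om p) * (∏ q ∈ S, Real.cos (Real.pi / (2 * om q) * om p)) *
        tm a b p t := by
    funext p
    unfold sg
    ring
  rw [e, (hg t).tsum_eq]
  exact h1

/-! ### Summability -/

theorem summable_om4 : Summable fun p : ℕ × ℕ => 1 / om p ^ 4 := by
  have h1 : Summable fun n : ℕ => 1 / ((n : ℝ) + 1) ^ 2 := by
    have := (summable_nat_add_iff 1).mpr (Real.summable_one_div_nat_pow.mpr (one_lt_two))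
    simpa using this
  have h2 : Summable fun p : ℕ × ℕ => 1 / ((p.1 : ℝ) + 1) ^ 2 * (1 / ((p.2 : ℝ) + 1) ^ 2) :=
    h1.mul_of_nonneg h1 (fun n => by positivity) fun n => by positivity
  refine h2.of_nonneg_of_le (fun p => by have := om_pos p; positivity) fun p => ?_
  have e : om p ^ 4 = (((p.1 : ℝ) + 1) ^ 2 + ((p.2 : ℝ) + 1) ^ 2) ^ 2 := by
    rw [← om_sq]; ring
  rw [e, one_div_mul_one_div]
  apply one_div_le_one_div_of_le (by positivity)
  nlinarith [sq_nonneg (((p.1 : ℝ) + 1) ^ 2 - ((p.2 : ℝ) + 1) ^ 2),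
    mul_nonneg (sq_nonneg ((p.1 : ℝ) + 1)) (sq_nonneg ((p.2 : ℝ) + 1))]

/-- finite energy -/
def Energy (a b : ℕ → ℕ → ℝ) : Prop :=
  Summable (fun p : ℕ × ℕ =>
    (((p.1 : ℝ) + 1) ^ 2 + ((p.2 : ℝ) + 1) ^ 2) * (a p.1 p.2 ^ 2 + b p.1 p.2 ^ 2))

theorem Energy.sum_sq {a b : ℕ → ℕ → ℝ} (h : Energy a b) :
    Summable fun p : ℕ × ℕ => a p.1 p.2 ^ 2 + b p.1 p.2 ^ 2 := by
  refine Summable.of_nonneg_of_le (fun p => by positivity) (fun p => ?_) h
  have h1 := one_le_om p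
  have h2 : 1 ≤ ((p.1 : ℝ) + 1) ^ 2 + ((p.2 : ℝ) + 1) ^ 2 := by
    rw [← om_sq]; nlinarith
  have h3 : 0 ≤ a p.1 p.2 ^ 2 + b p.1 p.2 ^ 2 := by positivity
  nlinarith

theorem Energy.sum_sg {a b : ℕ → ℕ → ℝ} (h : Energy a b) (S : Finset (ℕ × ℕ)) :
    Summable fun p : ℕ × ℕ => |sg S p| * (|a p.1 p.2| + |b p.1 p.2|) := by
  refine Summable.of_nonneg_of_le (fun p => by positivity) (fun p => ?_)
    (summable_om4.add h)
  rw [← om_sq]
  have h1 := abs_sg_le S p
  have h0 := om_pos p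
  have h2 : |sg S p| * (|a p.1 p.2| + |b p.1 p.2|) ≤ 1 / om p * (|a p.1 p.2| + |b p.1 p.2|) :=
    mul_le_mul_of_nonneg_right h1 (by positivity)
  refine h2.trans ?_
  have h3 : 1 / om p * (|a p.1 p.2| + |b p.1 p.2|) =
      (1 / om p ^ 2) * (om p * |a p.1 p.2|) + (1 / om p ^ 2) * (om p * |b p.1 p.2|) := by
    field_simp
  have h4 : (om p * |a p.1 p.2|) ^ 2 = om p ^ 2 * a p.1 p.2 ^ 2 := by rw [mul_pow, sq_abs]
  have h5 : (om p * |b p.1 p.2|) ^ 2 = om p ^ 2 * b p.1 p.2 ^ 2 := by rw [mul_pow, sq_abs]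
  have h6 : (1 / om p ^ 2) ^ 2 = 1 / om p ^ 4 := by rw [div_pow, ← pow_mul, one_pow]
  rw [h3, ← h6, mul_add, ← h4, ← h5]
  nlinarith [sq_nonneg (1 / om p ^ 2 - om p * |a p.1 p.2|),
    sq_nonneg (1 / om p ^ 2 - om p * |b p.1 p.2|)]

theorem Energy.sum_w {a b : ℕ → ℕ → ℝ} (h : Energy a b) {w : ℕ × ℕ → ℝ}
    (hw : Summable fun p => w p ^ 2) :
    Summable fun p : ℕ × ℕ => |w p| * (|a p.1 p.2| + |b p.1 p.2|) := by
  refine Summable.of_nonneg_of_le (fun p => by positivity) (fun p => ?_)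
    (hw.add h.sum_sq)
  have h1 := sq_abs (w p)
  have h2 := sq_abs (a p.1 p.2)
  have h3 := sq_abs (b p.1 p.2)
  nlinarith [sq_nonneg (|w p| - |a p.1 p.2|), sq_nonneg (|w p| - |b p.1 p.2|)]

end Pool.Agent.H36.VM
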