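import Pool.Agent.H36.VM.RedA

/-!
# Square membrane (MP_71a28e_an, S05034): the coefficients on `ℤ²` for `T_red`
-/

set_option autoImplicit false

open MeasureTheory Filter Topology

namespace Pool.Agent.H36.VM

open Pool.Agent.H28.VM

/-- mode index of a lattice vector -/
def ix (k : ℤ × ℤ) : ℕ × ℕ := (k.1.natAbs - 1, k.2.natAbs - 1)

/-- coefficients on the lattice -/
noncomputable def cf (a b : ℕ → ℕ → ℝ) (S : Finset (ℕ × ℕ)) (tc : ℝ) (k : ℤ × ℤ) : ℂ :=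
  -(1 / 8 : ℂ) * ((k.1.sign : ℂ) * (k.2.sign : ℂ)) * ((sg S (ix k) : ℝ) : ℂ) *
    (((a (ix k).1 (ix k).2 : ℝ) : ℂ) + ((b (ix k).1 (ix k).2 : ℝ) : ℂ) * Complex.I) *
      ee (-(om (ix k) * tc))

theorem cf_neg1 (a b : ℕ → ℕ → ℝ) (S : Finset (ℕ × ℕ)) (tc : ℝ) (m n : ℤ) :
    cf a b S tc (-m, n) = -cf a b S tc (m, n) := by
  unfold cf ix
  simp only [Int.natAbs_neg, Int.sign_neg, Int.cast_neg]
  ring

theorem cf_neg2 (a b : ℕ → ℕ → ℝ) (S : Finset (ℕ × ℕ)) (tc : ℝ) (m n : ℤ) :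
    cf a b S tc (m, -n) = -cf a b S tc (m, n) := by
  unfold cf ix
  simp only [Int.natAbs_neg, Int.sign_neg, Int.cast_neg]
  ring

/-- sign of a Boolean -/
def sb (s : Bool) : ℤ := if s then 1 else -1

/-- parametrisation of the lattice vectors off the axes -/
def par (q : (ℕ × ℕ) × (Bool × Bool)) : ℤ × ℤ :=
  (sb q.2.1 * ((q.1.1 : ℤ) + 1), sb q.2.2 * ((q.1.2 : ℤ) + 1))

theorem sb_cases (s : Bool) : sb s = 1 ∨ sb s = -1 := by
  cases s <;> simp [sb]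

theorem par_injective : Function.Injective par := by
  rintro ⟨⟨m, n⟩, ⟨s, t⟩⟩ ⟨⟨m', n'⟩, ⟨s', t'⟩⟩ h
  have h1 : sb s * ((m : ℤ) + 1) = sb s' * ((m' : ℤ) + 1) := congrArg Prod.fst h
  have h2 : sb t * ((n : ℤ) + 1) = sb t' * ((n' : ℤ) + 1) := congrArg Prod.snd h
  have e1 : s = s' ∧ m = m' := by
    cases s <;> cases s' <;> simp [sb] at h1 ⊢ <;> omega
  have e2 : t = t' ∧ n = n' := by
    cases t <;> cases t' <;> simp [sb] at h2 ⊢ <;> omega
  rw [e1.1, e1.2, e2.1, e2.2]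

theorem mem_range_par {k : ℤ × ℤ} (h1 : k.1 ≠ 0) (h2 : k.2 ≠ 0) : k ∈ Set.range par := by
  have aux : ∀ m : ℤ, m ≠ 0 → ∃ s : Bool, sb s * (((m.natAbs - 1 : ℕ) : ℤ) + 1) = m := by
    intro m hm
    rcases lt_or_gt_of_ne hm with h | h
    · exact ⟨false, by simp only [sb]; simp; omega⟩
    · exact ⟨true, by simp only [sb]; simp; omega⟩
  obtain ⟨s, hs⟩ := aux k.1 h1
  obtain ⟨t, ht⟩ := aux k.2 h2
  exact ⟨((k.1.natAbs - 1, k.2.natAbs - 1), (s, t)), Prod.ext hs ht⟩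

theorem ix_par (q : (ℕ × ℕ) × (Bool × Bool)) : ix (par q) = q.1 := by
  obtain ⟨⟨m, n⟩, ⟨s, t⟩⟩ := q
  unfold ix par
  have e1 : (sb s * ((m : ℤ) + 1)).natAbs = m + 1 := by
    rcases sb_cases s with h | h <;> rw [h] <;> omega
  have e2 : (sb t * ((n : ℤ) + 1)).natAbs = n + 1 := by
    rcases sb_cases t with h | h <;> rw [h] <;> omega
  simp only [e1, e2, Nat.add_sub_cancel]

theorem sign_par (q : (ℕ × ℕ) × (Bool × Bool)) :
    (par q).1.sign = sb q.2.1 ∧ (par q).2.sign = sb q.2.2 := by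
  obtain ⟨⟨m, n⟩, ⟨s, t⟩⟩ := q
  have h : ∀ (s : Bool) (m : ℕ), (sb s * ((m : ℤ) + 1)).sign = sb s := by
    intro s m
    rcases sb_cases s with h | h <;> rw [h]
    · rw [one_mul]; exact Int.sign_eq_one_of_pos (by omega)
    · rw [neg_one_mul, Int.sign_neg, Int.sign_eq_one_of_pos (by omega)]
  exact ⟨h s m, h t n⟩

theorem nm_par (q : (ℕ × ℕ) × (Bool × Bool)) : nm (par q) = om q.1 := by
  obtain ⟨⟨m, n⟩, ⟨s, t⟩⟩ := q
  unfold nm om par
  congr 1
  have h : ∀ (s : Bool) (m : ℕ), ((sb s * ((m : ℤ) + 1) : ℤ) : ℝ) ^ 2 = ((m : ℝ) + 1) ^ 2 := by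
    intro s m
    rcases sb_cases s with h | h <;> rw [h] <;> push_cast <;> ring
  rw [h s m, h t n]

theorem cf_eq_zero_of_axis (a b : ℕ → ℕ → ℝ) (S : Finset (ℕ × ℕ)) (tc : ℝ) {k : ℤ × ℤ}
    (hk : k ∉ Set.range par) : cf a b S tc k = 0 := by
  by_cases h1 : k.1 = 0
  · unfold cf; rw [h1]; simp
  by_cases h2 : k.2 = 0
  · unfold cf; rw [h2]; simp
  exact absurd (mem_range_par h1 h2) hk

theorem cf_par (a b : ℕ → ℕ → ℝ) (S : Finset (ℕ × ℕ)) (tc : ℝ) (q : (ℕ × ℕ) × (Bool × Bool)) :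
    cf a b S tc (par q) = -(1 / 8 : ℂ) * ((sb q.2.1 : ℂ) * (sb q.2.2 : ℂ)) *
      ((sg S q.1 : ℝ) : ℂ) *
    (((a q.1.1 q.1.2 : ℝ) : ℂ) + ((b q.1.1 q.1.2 : ℝ) : ℂ) * Complex.I) *
      ee (-(om q.1 * tc)) := by
  unfold cf
  rw [ix_par, (sign_par q).1, (sign_par q).2]

theorem norm_cf_par_le (a b : ℕ → ℕ → ℝ) (S : Finset (ℕ × ℕ)) (tc : ℝ)
    (q : (ℕ × ℕ) × (Bool × Bool)) :
    ‖cf a b S tc (par q)‖ ≤ |sg S q.1| * (|a q.1.1 q.1.2| + |b q.1.1 q.1.2|) := by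
  rw [cf_par, norm_mul, norm_ee, mul_one, norm_mul, norm_mul, norm_mul, norm_mul]
  have h1 : ∀ s : Bool, ‖((sb s : ℤ) : ℂ)‖ = 1 := by
    intro s
    rcases sb_cases s with h | h <;> rw [h] <;> simp
  rw [h1, h1]
  have h2 : ‖(((a q.1.1 q.1.2 : ℝ) : ℂ) + ((b q.1.1 q.1.2 : ℝ) : ℂ) * Complex.I)‖ ≤
      |a q.1.1 q.1.2| + |b q.1.1 q.1.2| := by
    refine (norm_add_le _ _).trans ?_
    rw [norm_mul, Complex.norm_I, mul_one, Complex.norm_real, Complex.norm_real, Real.norm_eq_abs,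
      Real.norm_eq_abs]
  have h3 : ‖(-(1 / 8 : ℂ))‖ ≤ 1 := by
    rw [norm_neg, norm_div, norm_one]
    norm_num
  rw [Complex.norm_real, Real.norm_eq_abs]
  have h4 := abs_nonneg (sg S q.1)
  have h5 : 0 ≤ |a q.1.1 q.1.2| + |b q.1.1 q.1.2| := by positivity
  calc ‖(-(1 / 8 : ℂ))‖ * (1 * 1) * |sg S q.1| * ‖_‖
      ≤ 1 * (1 * 1) * |sg S q.1| * (|a q.1.1 q.1.2| + |b q.1.1 q.1.2|) := by
        gcongr
    _ = _ := by ring

theorem cf_coef {a b : ℕ → ℕ → ℝ} (h : Energy a b) (S : Finset (ℕ × ℕ)) (tc : ℝ) :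
    Coef (cf a b S tc) := by
  refine ⟨?_, cf_neg1 a b S tc, cf_neg2 a b S tc⟩
  rw [← par_injective.summable_iff]
  · have h1 : Summable fun q : (ℕ × ℕ) × (Bool × Bool) =>
        |sg S q.1| * (|a q.1.1 q.1.2| + |b q.1.1 q.1.2|) * (1 : ℝ) := by
      apply (h.sum_sg S).mul_of_nonneg (g := fun _ : Bool × Bool => (1 : ℝ))
      · exact Summable.of_finite
      · intro p; positivity
      · intro _; positivity
    refine Summable.of_nonneg_of_le (fun q => norm_nonneg _) (fun q => ?_) h1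
    rw [mul_one]
    exact norm_cf_par_le a b S tc q
  · intro k hk
    rw [cf_eq_zero_of_axis a b S tc hk, norm_zero]

/-- the cutoff set of low modes -/
noncomputable def low (R : ℝ) : Finset (ℕ × ℕ) :=
  Finset.range (⌈R⌉₊ + 1) ×ˢ Finset.range (⌈R⌉₊ + 1)

theorem cf_low (a b : ℕ → ℕ → ℝ) (tc R : ℝ) (k : ℤ × ℤ) (hk : nm k < R) :
    cf a b (low R) tc k = 0 := by
  by_cases h : k ∈ Set.range par
  · obtain ⟨q, rfl⟩ := h
    have hq : q.1 ∈ low R := by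
      rw [nm_par] at hk
      have h1 : (q.1.1 : ℝ) ≤ om q.1 := by
        apply Real.le_sqrt_of_sq_le
        have : (0 : ℝ) ≤ q.1.1 := Nat.cast_nonneg _
        nlinarith [sq_nonneg ((q.1.2 : ℝ) + 1)]
      have h2 : (q.1.2 : ℝ) ≤ om q.1 := by
        apply Real.le_sqrt_of_sq_le
        have : (0 : ℝ) ≤ q.1.2 := Nat.cast_nonneg _
        nlinarith [sq_nonneg ((q.1.1 : ℝ) + 1)]
      have h3 := Nat.le_ceil R
      have h4 : (q.1.1 : ℝ) < (⌈R⌉₊ : ℝ) := by linarith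
      have h5 : (q.1.2 : ℝ) < (⌈R⌉₊ : ℝ) := by linarith
      have h6 : q.1.1 < ⌈R⌉₊ := by exact_mod_cast h4
      have h7 : q.1.2 < ⌈R⌉₊ := by exact_mod_cast h5
      unfold low
      rw [Finset.mem_product, Finset.mem_range, Finset.mem_range]
      omega
    rw [cf_par, sg_eq_zero hq]
    simp
  · exact cf_eq_zero_of_axis a b _ tc h

/-- the four signs together -/
theorem sum_signs (x y : ℝ) :
    ∑ s : Bool × Bool, ((sb s.1 : ℂ) * (sb s.2 : ℂ)) * ee ((sb s.1 : ℝ) * x + (sb s.2 : ℝ) * y) =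
      -4 * ((Real.sin x * Real.sin y : ℝ) : ℂ) := by
  have h : ∀ x : ℝ, ee x - ee (-x) = 2 * Complex.I * ((Real.sin x : ℝ) : ℂ) := by
    intro x
    unfold ee
    push_cast
    rw [Complex.sin]
    have hI : Complex.I * Complex.I = -1 := Complex.I_mul_I
    linear_combination (-(Complex.exp (-(x : ℂ) * Complex.I) - Complex.exp ((x : ℂ) * Complex.I))) * hI
  rw [Fintype.sum_prod_type]
  simp only [Fintype.sum_bool, sb, if_true, Bool.false_eq_true, if_false]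
  push_cast
  have e1 : ee (1 * x + 1 * y) = ee x * ee y := by rw [← ee_add]; ring_nf
  have e2 : ee (1 * x + -1 * y) = ee x * ee (-y) := by rw [← ee_add]; ring_nf
  have e3 : ee (-1 * x + 1 * y) = ee (-x) * ee y := by rw [← ee_add]; ring_nf
  have e4 : ee (-1 * x + -1 * y) = ee (-x) * ee (-y) := by rw [← ee_add]; ring_nf
  rw [e1, e2, e3, e4]
  have h1 : (ee x - ee (-x)) * (ee y - ee (-y)) =
      (2 * Complex.I * ((Real.sin x : ℝ) : ℂ)) * (2 * Complex.I * ((Real.sin y : ℝ) : ℂ)) := by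
    rw [h, h]
  have hI : Complex.I * Complex.I = -1 := Complex.I_mul_I
  push_cast at h1 ⊢
  linear_combination h1 + 4 * (Complex.sin x * Complex.sin y) * hI

/-- the sine series of the solution -/
theorem hasSum_u {a b : ℕ → ℕ → ℝ} (h : Energy a b) (S : Finset (ℕ × ℕ)) (tc t : ℝ) (z : ℝ × ℝ) :
    HasSum (fun p : ℕ × ℕ => sg S p * tm a b p (t + tc) *
      (Real.sin (((p.1 : ℝ) + 1) * z.1) * Real.sin (((p.2 : ℝ) + 1) * z.2)))
        (u (cf a b S tc) t z) := by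
  have hs := (cf_coef h S tc).sum
  have hs1 : Summable fun k : ℤ × ℤ => cf a b S tc k * ee (dt k z - nm k * t) := by
    refine hs.of_norm_bounded fun k => ?_
    rw [norm_mul, norm_ee, mul_one]
  have h1 : HasSum (fun k : ℤ × ℤ => cf a b S tc k * ee (dt k z - nm k * t))
      (v (cf a b S tc) t z) := hs1.hasSum
  have h2 : HasSum ((fun k : ℤ × ℤ => cf a b S tc k * ee (dt k z - nm k * t)) ∘ par)
      (v (cf a b S tc) t z) := by
    rw [par_injective.hasSum_iff]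
    · exact h1
    · intro k hk
      rw [cf_eq_zero_of_axis a b S tc hk, zero_mul]
  have h3 : HasSum (fun p : ℕ × ℕ => ∑ s : Bool × Bool,
      cf a b S tc (par (p, s)) * ee (dt (par (p, s)) z - nm (par (p, s)) * t))
      (v (cf a b S tc) t z) := by
    refine h2.prod_fiberwise fun p => ?_
    exact hasSum_fintype _
  have h4 : ∀ p : ℕ × ℕ, ∑ s : Bool × Bool,
      cf a b S tc (par (p, s)) * ee (dt (par (p, s)) z - nm (par (p, s)) * t) =
        (1 / 2 : ℂ) * ((sg S p : ℝ) : ℂ) *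
        (((a p.1 p.2 : ℝ) : ℂ) + ((b p.1 p.2 : ℝ) : ℂ) * Complex.I) * ee (-(om p * (t + tc))) *
          ((Real.sin (((p.1 : ℝ) + 1) * z.1) * Real.sin (((p.2 : ℝ) + 1) * z.2) : ℝ) : ℂ) := by
    intro p
    have e0 : ee (-(om p * (t + tc))) = ee (-(om p * tc)) * ee (-(om p * t)) := by
      rw [← ee_add]; ring_nf
    have e1 : ∀ s : Bool × Bool, ee (dt (par (p, s)) z - nm (par (p, s)) * t) =
        ee ((sb s.1 : ℝ) * (((p.1 : ℝ) + 1) * z.1) + (sb s.2 : ℝ) * (((p.2 : ℝ) + 1) * z.2)) *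
          ee (-(om p * t)) := by
      intro s
      rw [nm_par, ← ee_add]
      congr 1
      unfold dt par
      push_cast
      ring
    have e2 := sum_signs (((p.1 : ℝ) + 1) * z.1) (((p.2 : ℝ) + 1) * z.2)
    rw [e0]
    calc _ = ∑ s : Bool × Bool, (-(1 / 8 : ℂ) * ((sg S p : ℝ) : ℂ) *
          (((a p.1 p.2 : ℝ) : ℂ) + ((b p.1 p.2 : ℝ) : ℂ) * Complex.I) * ee (-(om p * tc)) *
          ee (-(om p * t))) * (((sb s.1 : ℂ) * (sb s.2 : ℂ)) *
            ee ((sb s.1 : ℝ) * (((p.1 : ℝ) + 1) * z.1) + (sb s.2 : ℝ) * (((p.2 : ℝ) + 1) * z.2))) := by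
          refine Finset.sum_congr rfl fun s _ => ?_
          rw [e1, cf_par]
          ring
      _ = _ := by
          rw [← Finset.mul_sum, e2]
          ring
  simp only [h4] at h3
  have h6 := (Complex.hasSum_re h3).mul_left 2
  have e : (fun p : ℕ × ℕ => sg S p * tm a b p (t + tc) *
      (Real.sin (((p.1 : ℝ) + 1) * z.1) * Real.sin (((p.2 : ℝ) + 1) * z.2))) = fun p =>
      2 * ((1 / 2 : ℂ) * ((sg S p : ℝ) : ℂ) *
        (((a p.1 p.2 : ℝ) : ℂ) + ((b p.1 p.2 : ℝ) : ℂ) * Complex.I) * ee (-(om p * (t + tc))) *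
          ((Real.sin (((p.1 : ℝ) + 1) * z.1) * Real.sin (((p.2 : ℝ) + 1) * z.2) : ℝ) : ℂ)).re := by
    funext p
    have e1 : ee (-(om p * (t + tc))) = ((Real.cos (om p * (t + tc)) : ℝ) : ℂ) -
        ((Real.sin (om p * (t + tc)) : ℝ) : ℂ) * Complex.I := by
      unfold ee
      rw [Complex.exp_mul_I]
      push_cast
      rw [Complex.cos_neg, Complex.sin_neg]
      ring
    have e2 : (1 / 2 : ℂ) * ((sg S p : ℝ) : ℂ) *
        (((a p.1 p.2 : ℝ) : ℂ) + ((b p.1 p.2 : ℝ) : ℂ) * Complex.I) *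
          (((Real.cos (om p * (t + tc)) : ℝ) : ℂ) -
        ((Real.sin (om p * (t + tc)) : ℝ) : ℂ) * Complex.I) *
          ((Real.sin (((p.1 : ℝ) + 1) * z.1) * Real.sin (((p.2 : ℝ) + 1) * z.2) : ℝ) : ℂ) =
        (((1 / 2) * sg S p * (a p.1 p.2 * Real.cos (om p * (t + tc)) +
          b p.1 p.2 * Real.sin (om p * (t + tc))) *
          (Real.sin (((p.1 : ℝ) + 1) * z.1) * Real.sin (((p.2 : ℝ) + 1) * z.2)) : ℝ) : ℂ) +
        (((1 / 2) * sg S p * (b p.1 p.2 * Real.cos (om p * (t + tc)) -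
          a p.1 p.2 * Real.sin (om p * (t + tc))) *
          (Real.sin (((p.1 : ℝ) + 1) * z.1) * Real.sin (((p.2 : ℝ) + 1) * z.2)) : ℝ) : ℂ) *
            Complex.I := by
      have hI : Complex.I * Complex.I = -1 := Complex.I_mul_I
      push_cast
      linear_combination (-(1 / 2 : ℂ) * (sg S p : ℂ) * (b p.1 p.2 : ℂ) *
        Complex.sin (om p * (t + tc)) *
        (Complex.sin (((p.1 : ℂ) + 1) * z.1) * Complex.sin (((p.2 : ℂ) + 1) * z.2))) * hI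
    rw [e1, e2, Complex.add_re, Complex.re_ofReal_mul, Complex.I_re, Complex.ofReal_re]
    unfold tm
    ring
  rw [e]
  exact h6

end Pool.Agent.H36.VM
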